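import Pool.Agent.Lib.PP2.Full

/-!
# Stanley's P-partition conjecture

A labelled poset with symmetric `P`-partition enumerator is a skew shape with a column-strict
labelling.
-/

namespace Pool.Agent.Results.MP_c24f46_co.Stanley

open Pool.PPart

theorem result {P : Type*} [PartialOrder P] [Fintype P] (ω : P → ℕ)
    (hω : Function.Injective ω) (hsym : IsSymmetric (enumerator ω)) : IsSkewShape ω :=
  Pool.PP2.stanley ω hω hsym

end Pool.Agent.Results.MP_c24f46_co.Stanley
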